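import Pool.Agent.H500.SV.Stm

set_option autoImplicit false

/-!
# Project SV, part 1: semisimplification
-/

namespace Pool.Agent.H935.SV.SS

open Polynomial

section Core

variable {k : Type} [Field k]

/-- a commuting family over an algebraically closed field has a common eigenvector -/
lemma common_eigenvector [IsAlgClosed k] {V : Type} [AddCommGroup V] [Module k V]
    [Module.Finite k V] [Nontrivial V] (S : Set (Module.End k V))
    (hS : ∀ a ∈ S, ∀ b ∈ S, a * b = b * a) :
    ∃ v : V, v ≠ 0 ∧ ∀ a ∈ S, ∃ c : k, a v = c • v := by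
  let P : Set (Submodule k V) := {W | W ≠ ⊥ ∧ ∀ a ∈ S, ∀ w ∈ W, a w ∈ W}
  have hP : P.Nonempty := ⟨⊤, top_ne_bot, fun a _ w _ => Submodule.mem_top⟩
  obtain ⟨W, ⟨hW0, hWS⟩, hmin⟩ := IsArtinian.set_has_minimal P hP
  have hnt : Nontrivial W := Submodule.nontrivial_iff_ne_bot.mpr hW0
  have hsc : ∀ a ∈ S, ∃ c : k, ∀ w ∈ W, a w = c • w := by
    intro a ha
    obtain ⟨c, hc⟩ := Module.End.exists_eigenvalue (a.restrict (hWS a ha) : Module.End k W)
    obtain ⟨w0, hw0⟩ := hc.exists_hasEigenvector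
    have hw0e : a (w0 : V) = c • (w0 : V) := by
      have h1 := hw0.apply_eq_smul
      have h2 := congrArg (Subtype.val) h1
      simpa using h2
    have hw0n : (w0 : V) ≠ 0 := by
      intro h
      exact hw0.2 (Subtype.ext h)
    refine ⟨c, ?_⟩
    let W' : Submodule k V := W ⊓ LinearMap.ker (a - algebraMap k (Module.End k V) c)
    have hmem : ∀ w, w ∈ W' ↔ w ∈ W ∧ a w = c • w := by
      intro w
      rw [Submodule.mem_inf, LinearMap.mem_ker, LinearMap.sub_apply, Module.algebraMap_end_apply,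
        sub_eq_zero]
    have hW'P : W' ∈ P := by
      refine ⟨?_, ?_⟩
      · intro h
        have h1 : (w0 : V) ∈ W' := (hmem _).2 ⟨w0.2, hw0e⟩
        rw [h, Submodule.mem_bot] at h1
        exact hw0n h1
      · intro b hb w hw
        obtain ⟨hw1, hw2⟩ := (hmem w).1 hw
        refine (hmem _).2 ⟨hWS b hb w hw1, ?_⟩
        have h3 : a (b w) = b (a w) := by
          have := congrArg (fun f : Module.End k V => f w) (hS a ha b hb)
          simpa using this
        rw [h3, hw2, map_smul]
    have hle : W' ≤ W := inf_le_left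
    have heq : W' = W := by
      by_contra hne
      exact hmin W' hW'P (lt_of_le_of_ne hle hne)
    intro w hw
    rw [← heq] at hw
    exact ((hmem w).1 hw).2
  obtain ⟨⟨w, hw⟩, hwn⟩ := exists_ne (0 : W)
  refine ⟨w, fun h => hwn (Subtype.ext h), fun a ha => ?_⟩
  obtain ⟨c, hc⟩ := hsc a ha
  exact ⟨c, hc w hw⟩

/-- multiplicativity of the characteristic polynomial -/
lemma charpoly_mul {V : Type} [AddCommGroup V] [Module k V] [Module.Finite k V]
    (W : Submodule k V) (e : V →ₗ[k] V) (he : W ≤ W.comap e) :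
    e.charpoly = (e.restrict he).charpoly * (W.mapQ W e he).charpoly := by
  let m := Module.Free.ChooseBasisIndex k W
  let bW : Module.Basis m k W := Module.Free.chooseBasis k W
  let n := Module.Free.ChooseBasisIndex k (V ⧸ W)
  let bQ : Module.Basis n k (V ⧸ W) := Module.Free.chooseBasis k (V ⧸ W)
  let b := Module.Basis.sumQuot bW bQ
  let A : Matrix m m k := LinearMap.toMatrix bW bW (e.restrict he)
  let B : Matrix m n k := Matrix.of fun i l ↦
    ((Module.Basis.sumQuot bW bQ).repr (e ((Module.Basis.sumQuot bW bQ) (Sum.inr l)))) (Sum.inl i)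
  let D : Matrix n n k := LinearMap.toMatrix bQ bQ (W.mapQ W e he)
  suffices LinearMap.toMatrix b b e = Matrix.fromBlocks A B 0 D by
    rw [← LinearMap.charpoly_toMatrix e b, this, ← LinearMap.charpoly_toMatrix _ bW,
      ← LinearMap.charpoly_toMatrix _ bQ, Matrix.charpoly_fromBlocks_zero₂₁]
  ext u v
  cases u with
  | inl i =>
    cases v with
    | inl k =>
      simp only [b, Module.Basis.sumQuot_inl, Matrix.fromBlocks_apply₁₁, A, LinearMap.toMatrix_apply]
      apply Module.Basis.sumQuot_repr_inl_of_mem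
    | inr l => simp [b, LinearMap.toMatrix_apply, Matrix.fromBlocks_apply₁₂, B]
  | inr j =>
    cases v with
    | inl k =>
      suffices W.mkQ (e (bW k)) = 0 by simp [LinearMap.toMatrix_apply, b, this]
      rw [← LinearMap.mem_ker, Submodule.ker_mkQ]
      exact he (Submodule.coe_mem (bW k))
    | inr l =>
      simp only [LinearMap.toMatrix_apply, Module.Basis.sumQuot_repr_inr,
        Matrix.fromBlocks_apply₂₂, b, D]
      rw [← Module.Basis.sumQuot_inr bW bQ l, W.mapQ_apply]
      simp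

variable {G : Type} [Group G]

/-- existence of a good semisimplification on `k ^ ι` -/
def Good {V : Type} [AddCommGroup V] [Module k V] [Module.Finite k V]
    (ρ : G →* Module.End k V) (ι : Type) [Fintype ι] [DecidableEq ι] : Prop :=
  ∃ ρ' : G →* Matrix ι ι k, (∀ g, ρ g = 1 → ρ' g = 1) ∧
    (∀ g, (ρ' g).charpoly = LinearMap.charpoly (ρ g)) ∧
    ∀ A : Subgroup G, A.Normal → (∀ a ∈ A, ∀ b ∈ A, ρ' a * ρ' b = ρ' b * ρ' a) →
      ∃ Q R : Matrix ι ι k, Q * R = 1 ∧ R * Q = 1 ∧ ∀ a ∈ A, (Q * ρ' a * R).IsDiag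

lemma Good.reindex {V : Type} [AddCommGroup V] [Module k V] [Module.Finite k V]
    {ρ : G →* Module.End k V} {ι κ : Type} [Fintype ι] [DecidableEq ι] [Fintype κ] [DecidableEq κ]
    (e : ι ≃ κ) (h : Good ρ ι) : Good ρ κ := by
  obtain ⟨ρ', h1, h2, h3⟩ := h
  let E : Matrix ι ι k ≃ₐ[k] Matrix κ κ k := Matrix.reindexAlgEquiv k k e
  have hE : ∀ M : Matrix ι ι k, E M = Matrix.reindex e e M := fun M => rfl
  refine ⟨(E : Matrix ι ι k →* Matrix κ κ k).comp ρ', ?_, ?_, ?_⟩
  · intro g hg
    change E (ρ' g) = 1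
    rw [h1 g hg, map_one]
  · intro g
    change (E (ρ' g)).charpoly = _
    rw [hE, Matrix.charpoly_reindex, h2 g]
  · intro A hA hc
    have hc' : ∀ a ∈ A, ∀ b ∈ A, ρ' a * ρ' b = ρ' b * ρ' a := by
      intro a ha b hb
      have h4 : E (ρ' a) * E (ρ' b) = E (ρ' b) * E (ρ' a) := hc a ha b hb
      rw [← map_mul E, ← map_mul E] at h4
      exact E.injective h4
    obtain ⟨Q, R, hQR, hRQ, hd⟩ := h3 A hA hc'
    refine ⟨E Q, E R, ?_, ?_, ?_⟩
    · rw [← map_mul, hQR, map_one]
    · rw [← map_mul, hRQ, map_one]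
    · intro a ha
      change (E Q * E (ρ' a) * E R).IsDiag
      rw [← map_mul, ← map_mul, hE]
      intro i j hij
      rw [Matrix.reindex_apply, Matrix.submatrix_apply]
      exact hd a ha (fun h => hij (e.symm.injective h))

/-- the irreducible case -/
lemma good_irr [IsAlgClosed k] {V : Type} [AddCommGroup V] [Module k V] [Module.Finite k V]
    (ρ : G →* Module.End k V) (ι : Type) [Fintype ι] [DecidableEq ι]
    (hι : Fintype.card ι = Module.finrank k V)
    (hirr : ∀ W : Submodule k V, (∀ g, ∀ w ∈ W, ρ g w ∈ W) → W = ⊥ ∨ W = ⊤) : Good ρ ι := by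
  let b0 : Module.Basis ι k V :=
    (Module.finBasis k V).reindex (Fintype.equivOfCardEq (by rw [Fintype.card_fin, hι]))
  refine ⟨((LinearMap.toMatrixAlgEquiv b0 : Module.End k V ≃ₐ[k] Matrix ι ι k) :
    Module.End k V →* Matrix ι ι k).comp ρ, ?_, ?_, ?_⟩
  · intro g hg
    change LinearMap.toMatrixAlgEquiv b0 (ρ g) = 1
    rw [hg, map_one]
  · intro g
    exact LinearMap.charpoly_toMatrix (ρ g) b0
  · intro A hA hc
    have hc' : ∀ a ∈ A, ∀ b ∈ A, ρ a * ρ b = ρ b * ρ a := by
      intro a ha b hb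
      have h4 : LinearMap.toMatrixAlgEquiv b0 (ρ a) * LinearMap.toMatrixAlgEquiv b0 (ρ b) =
          LinearMap.toMatrixAlgEquiv b0 (ρ b) * LinearMap.toMatrixAlgEquiv b0 (ρ a) := hc a ha b hb
      rw [← map_mul (LinearMap.toMatrixAlgEquiv b0), ← map_mul (LinearMap.toMatrixAlgEquiv b0)] at h4
      exact (LinearMap.toMatrixAlgEquiv b0).injective h4
    let S : Set V := {v | ∀ a ∈ A, ∃ c : k, ρ a v = c • v}
    have hstab : ∀ g, ∀ w ∈ Submodule.span k S, ρ g w ∈ Submodule.span k S := by
      intro g w hw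
      induction hw using Submodule.span_induction with
      | mem v hv =>
        apply Submodule.subset_span
        intro a ha
        obtain ⟨c, hc⟩ := hv (g⁻¹ * a * g) (by simpa using hA.conj_mem a ha g⁻¹)
        refine ⟨c, ?_⟩
        have h5 : ρ a * ρ g = ρ g * ρ (g⁻¹ * a * g) := by
          rw [← map_mul, ← map_mul]
          congr 1
          group
        have h6 := congrArg (fun f : Module.End k V => f v) h5
        simp only [Module.End.mul_apply] at h6
        rw [h6, hc, map_smul]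
      | zero => simp
      | add x y _ _ hx hy => rw [map_add]; exact Submodule.add_mem _ hx hy
      | smul c x _ hx => rw [map_smul]; exact Submodule.smul_mem _ _ hx
    have htop : Submodule.span k S = ⊤ := by
      rcases hirr _ hstab with h | h
      · rcases subsingleton_or_nontrivial V with hs | hs
        · exact Subsingleton.elim _ _
        · exfalso
          obtain ⟨v, hv0, hv⟩ := common_eigenvector (k := k) (V := V)
            {f | ∃ a ∈ A, f = ρ a} (by
              rintro _ ⟨a, ha, rfl⟩ _ ⟨b, hb, rfl⟩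
              exact hc' a ha b hb)
          have h7 : v ∈ Submodule.span k S :=
            Submodule.subset_span (fun a ha => hv (ρ a) ⟨a, ha, rfl⟩)
          rw [h, Submodule.mem_bot] at h7
          exact hv0 h7
      · exact h
    let b1 := Module.Basis.ofSpan (K := k) (V := V) (s := S) htop.ge
    have hb1 : ∀ i, b1 i ∈ S := fun i => Module.Basis.ofSpan_subset htop.ge ⟨i, rfl⟩
    have : Fintype ((linearIndepOn_empty k id).extend (Set.empty_subset S)) :=
      FiniteDimensional.fintypeBasisIndex b1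
    let b : Module.Basis ι k V := b1.reindex (Fintype.equivOfCardEq (by
      rw [hι, ← Module.finrank_eq_card_basis b1]))
    have hb : ∀ i, b i ∈ S := by
      intro i
      simp only [b, Module.Basis.reindex_apply]
      exact hb1 _
    refine ⟨b.toMatrix b0, b0.toMatrix b, Module.Basis.toMatrix_mul_toMatrix_flip b b0,
      Module.Basis.toMatrix_mul_toMatrix_flip b0 b, ?_⟩
    intro a ha
    have h8 : b.toMatrix b0 * LinearMap.toMatrix b0 b0 (ρ a) * b0.toMatrix b =
        LinearMap.toMatrix b b (ρ a) :=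
      basis_toMatrix_mul_linearMap_toMatrix_mul_basis_toMatrix b b0 b b0 (ρ a)
    change (b.toMatrix b0 * LinearMap.toMatrix b0 b0 (ρ a) * b0.toMatrix b).IsDiag
    rw [h8]
    intro i j hij
    rw [LinearMap.toMatrix_apply]
    obtain ⟨c, hc⟩ := hb j a ha
    rw [hc, map_smul, Finsupp.smul_apply, Module.Basis.repr_self, Finsupp.single_apply,
      if_neg (Ne.symm hij), smul_zero]

/-- the sub and the quotient representation -/
lemma good_red {V : Type} [AddCommGroup V] [Module k V] [Module.Finite k V]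
    (ρ : G →* Module.End k V) (W : Submodule k V) (hW : ∀ g, ∀ w ∈ W, ρ g w ∈ W)
    (ι κ : Type) [Fintype ι] [DecidableEq ι] [Fintype κ] [DecidableEq κ]
    (h1 : ∀ ρ1 : G →* Module.End k W, Good ρ1 ι)
    (h2 : ∀ ρ2 : G →* Module.End k (V ⧸ W), Good ρ2 κ) : Good ρ (ι ⊕ κ) := by
  have hW' : ∀ g, W ≤ W.comap (ρ g) := fun g w hw => hW g w hw
  let ρ1 : G →* Module.End k W :=
    { toFun := fun g => (ρ g).restrict (hW' g)
      map_one' := by
        ext w
        simp
      map_mul' := fun g h => by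
        ext w
        simp }
  let ρ2 : G →* Module.End k (V ⧸ W) :=
    { toFun := fun g => W.mapQ W (ρ g) (hW' g)
      map_one' := by
        ext w
        simp
      map_mul' := fun g h => by
        ext w
        simp }
  obtain ⟨σ1, a1, b1, c1⟩ := h1 ρ1
  obtain ⟨σ2, a2, b2, c2⟩ := h2 ρ2
  let σ : G →* Matrix (ι ⊕ κ) (ι ⊕ κ) k :=
    { toFun := fun g => Matrix.fromBlocks (σ1 g) 0 0 (σ2 g)
      map_one' := by
        rw [map_one, map_one, Matrix.fromBlocks_one]
      map_mul' := fun g h => by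
        rw [map_mul, map_mul, Matrix.fromBlocks_multiply]
        simp }
  have hσ : ∀ g, σ g = Matrix.fromBlocks (σ1 g) 0 0 (σ2 g) := fun g => rfl
  refine ⟨σ, ?_, ?_, ?_⟩
  · intro g hg
    have e1 : ρ1 g = 1 := by
      ext w
      change ρ g (w : V) = w
      rw [hg]
      rfl
    have e2 : ρ2 g = 1 := by
      ext w
      change W.mkQ (ρ g w) = W.mkQ w
      rw [hg]
      rfl
    rw [hσ, a1 g e1, a2 g e2, Matrix.fromBlocks_one]
  · intro g
    rw [hσ, Matrix.charpoly_fromBlocks_zero₂₁, b1 g, b2 g]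
    exact (charpoly_mul W (ρ g) (hW' g)).symm
  · intro A hA hc
    have hc1 : ∀ a ∈ A, ∀ b ∈ A, σ1 a * σ1 b = σ1 b * σ1 a := by
      intro a ha b hb
      have h3 := hc a ha b hb
      rw [hσ, hσ, Matrix.fromBlocks_multiply, Matrix.fromBlocks_multiply,
        Matrix.fromBlocks_inj] at h3
      simpa using h3.1
    have hc2 : ∀ a ∈ A, ∀ b ∈ A, σ2 a * σ2 b = σ2 b * σ2 a := by
      intro a ha b hb
      have h3 := hc a ha b hb
      rw [hσ, hσ, Matrix.fromBlocks_multiply, Matrix.fromBlocks_multiply,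
        Matrix.fromBlocks_inj] at h3
      simpa using h3.2.2.2
    obtain ⟨Q1, R1, hQR1, hRQ1, hd1⟩ := c1 A hA hc1
    obtain ⟨Q2, R2, hQR2, hRQ2, hd2⟩ := c2 A hA hc2
    refine ⟨Matrix.fromBlocks Q1 0 0 Q2, Matrix.fromBlocks R1 0 0 R2, ?_, ?_, ?_⟩
    · rw [Matrix.fromBlocks_multiply]
      simp [hQR1, hQR2]
    · rw [Matrix.fromBlocks_multiply]
      simp [hRQ1, hRQ2]
    · intro a ha
      rw [hσ, Matrix.fromBlocks_multiply, Matrix.fromBlocks_multiply]
      simp only [Matrix.mul_zero, Matrix.zero_mul, add_zero, zero_add]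
      exact Matrix.IsDiag.fromBlocks (hd1 a ha) (hd2 a ha)

lemma good_all [IsAlgClosed k] (n : ℕ) : ∀ (V : Type) [AddCommGroup V] [Module k V]
    [Module.Finite k V] (ρ : G →* Module.End k V) (ι : Type) [Fintype ι] [DecidableEq ι],
    Module.finrank k V = n → Fintype.card ι = n → Good ρ ι := by
  induction n using Nat.strong_induction_on with
  | _ n ih =>
    intro V _ _ _ ρ ι _ _ hV hι
    by_cases hirr : ∀ W : Submodule k V, (∀ g, ∀ w ∈ W, ρ g w ∈ W) → W = ⊥ ∨ W = ⊤
    · exact good_irr ρ ι (by rw [hι, hV]) hirr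
    · push Not at hirr
      obtain ⟨W, hW, hW0, hW1⟩ := hirr
      have hlt : Module.finrank k W < n := by
        rw [← hV]
        exact Submodule.finrank_lt hW1
      have hpos : 0 < Module.finrank k W := by
        have := Submodule.nontrivial_iff_ne_bot.mpr hW0
        exact Module.finrank_pos
      have hsum := Submodule.finrank_quotient_add_finrank W
      rw [hV] at hsum
      have h := good_red ρ W hW (Fin (Module.finrank k W)) (Fin (Module.finrank k (V ⧸ W)))
        (fun ρ1 => ih _ hlt W ρ1 _ rfl (Fintype.card_fin _))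
        (fun ρ2 => ih _ (by omega) (V ⧸ W) ρ2 _ rfl (Fintype.card_fin _))
      refine h.reindex (Fintype.equivOfCardEq ?_)
      rw [Fintype.card_sum, Fintype.card_fin, Fintype.card_fin, hι]
      omega

end Core

/-- PART 1: semisimplification -/
theorem main : Pool.Agent.H500.SV.S_SS := by
  intro n k _ _ G _ ρ
  let ρ0 : G →* Module.End k (Fin n → k) :=
    ((Matrix.toLinAlgEquiv' : Matrix (Fin n) (Fin n) k ≃ₐ[k] ((Fin n → k) →ₗ[k] (Fin n → k))) :
      Matrix (Fin n) (Fin n) k →* Module.End k (Fin n → k)).comp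
      ((Units.coeHom (Matrix (Fin n) (Fin n) k)).comp ρ)
  have hρ0 : ∀ g, ρ0 g = Matrix.toLin' (ρ g : Matrix (Fin n) (Fin n) k) := fun g => rfl
  obtain ⟨σ, h1, h2, h3⟩ := good_all n (Fin n → k) ρ0 (Fin n) (by simp) (by simp)
  have hσ : ∀ g, ((σ.toHomUnits g : GL (Fin n) k) : Matrix (Fin n) (Fin n) k) = σ g := fun g => rfl
  refine ⟨σ.toHomUnits, ?_, ?_, ?_⟩
  · intro g hg
    rw [MonoidHom.mem_ker] at hg ⊢
    apply Units.ext
    change σ g = 1
    apply h1
    rw [hρ0, hg]
    exact Matrix.toLin'_one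
  · intro g
    change (σ g).charpoly = _
    rw [h2, hρ0, Matrix.charpoly_toLin']
  · intro A hA hc
    have hc' : ∀ a ∈ A, ∀ b ∈ A, σ a * σ b = σ b * σ a := by
      intro a ha b hb
      exact congrArg (Units.val) (hc a ha b hb)
    obtain ⟨Q, R, hQR, hRQ, hd⟩ := h3 A hA hc'
    exact ⟨⟨Q, R, hQR, hRQ⟩, fun a ha => hd a ha⟩

end Pool.Agent.H935.SV.SS
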